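import Pool.Agent.Work.MP_db9399_exp.Interface
import Pool.Agent.Work.MP_db9399_all_helper6.LLLI
import Pool.Agent.Work.MP_db9399_all_helper7.RNH
import Pool.Agent.Work.MP_db9399_all_helper7.RNK
import Pool.Agent.Work.MP_db9399_all_helper7.RND
import Pool.Agent.Work.MP_db9399_all_helper95.STEP
import Pool.Agent.Work.MP_db9399_all_helper68.CNT

/-!
# MP_db9399, THEOREM EXP, block SPV (helper99)

Locally sparse graphs need fewer colours, from STEP and CNT of MP_db9399_all.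
-/

set_option autoImplicit false

namespace Pool.Agent.Work.MP_db9399_exp.helper99

open Finset Classical
open Pool.Agent.Work.MP_db9399_all (nb mis PSt av Stmt_STEP Stmt_CNT)

universe u

namespace SPV

section defs
variable {V : Type u} [Fintype V]

theorem mem_nb {G : SimpleGraph V} {v w : V} : w ∈ nb G v ↔ G.Adj v w := by
  unfold nb; simp

/-- the neighbours of `x` which are not adjacent to `b` -/
noncomputable def Mb (G : SimpleGraph V) (x b : V) : Finset V :=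
  (nb G x).filter (fun y => y ≠ b ∧ ¬ G.Adj y b)

/-- the neighbours `b` of `x` with large `Mb` -/
noncomputable def Lx (G : SimpleGraph V) (Δ : ℕ) (θ : ℝ) (x : V) : Finset V :=
  (nb G x).filter (fun b => θ / 2 * Δ ≤ ((Mb G x b).card : ℝ))

theorem mem_Mb {G : SimpleGraph V} {x b y : V} :
    y ∈ Mb G x b ↔ G.Adj x y ∧ y ≠ b ∧ ¬ G.Adj y b := by
  unfold Mb; rw [mem_filter, mem_nb]

theorem Lx_card {G : SimpleGraph V} {Δ : ℕ} {θ : ℝ} {x : V} (hΔ : 0 < Δ) (hθ : 0 < θ)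
    (hdeg : (nb G x).card ≤ Δ) (hm : θ * (Δ : ℝ) ^ 2 ≤ ((mis G (nb G x)).card : ℝ)) :
    θ / 2 * Δ ≤ ((Lx G Δ θ x).card : ℝ) := by
  set n := nb G x with hn
  set L := Lx G Δ θ x with hL
  set Q := (n \ L).biUnion (fun b => (Mb G x b).image (fun y => (b, y))) with hQ
  have hsub : mis G n ⊆ L ×ˢ n ∪ Q := by
    rintro ⟨a, b⟩ hab
    unfold mis at hab
    rw [mem_filter, mem_product] at hab
    obtain ⟨⟨ha, hb⟩, hne, hadj⟩ := hab
    simp only at ha hb hne hadj
    rw [mem_union, mem_product]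
    by_cases haL : a ∈ L
    · exact Or.inl ⟨haL, hb⟩
    · right
      rw [hQ, mem_biUnion]
      refine ⟨a, mem_sdiff.2 ⟨ha, haL⟩, mem_image.2 ⟨b, ?_, rfl⟩⟩
      rw [mem_Mb]
      exact ⟨mem_nb.1 hb, fun h => hne h.symm, fun h => hadj h.symm⟩
  have hnc : (n.card : ℝ) ≤ Δ := by exact_mod_cast hdeg
  have hΔ' : (0 : ℝ) < Δ := by exact_mod_cast hΔ
  have hQc : (Q.card : ℝ) ≤ (Δ : ℝ) * (θ / 2 * Δ) := by
    have h1 : (Q.card : ℝ) ≤ ∑ b ∈ n \ L, ((Mb G x b).card : ℝ) := by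
      have : Q.card ≤ ∑ b ∈ n \ L, (Mb G x b).card :=
        card_biUnion_le.trans (sum_le_sum fun b _ => card_image_le)
      exact_mod_cast this
    have h2 : ∀ b ∈ n \ L, ((Mb G x b).card : ℝ) ≤ θ / 2 * Δ := by
      intro b hb
      rw [mem_sdiff, hL] at hb
      unfold Lx at hb
      rw [mem_filter] at hb
      by_contra h
      exact hb.2 ⟨hb.1, (not_le.1 h).le⟩
    have h3 := sum_le_sum h2
    rw [sum_const, nsmul_eq_mul] at h3
    have h4 : ((n \ L).card : ℝ) ≤ Δ := by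
      refine le_trans ?_ hnc
      exact_mod_cast card_le_card (sdiff_subset (s := n) (t := L))
    calc (Q.card : ℝ) ≤ _ := h1
      _ ≤ _ := h3
      _ ≤ _ := mul_le_mul_of_nonneg_right h4 (by positivity)
  have htot : ((mis G n).card : ℝ) ≤ (L.card : ℝ) * n.card + Q.card := by
    have h2 : (mis G n).card ≤ L.card * n.card + Q.card := by
      refine (card_le_card hsub).trans ((card_union_le _ _).trans (le_of_eq ?_))
      rw [card_product]
    exact_mod_cast h2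
  have e2 : (L.card : ℝ) * n.card ≤ L.card * Δ :=
    mul_le_mul_of_nonneg_left hnc (Nat.cast_nonneg _)
  have e6 : θ / 2 * Δ * Δ ≤ (L.card : ℝ) * Δ := by nlinarith
  exact le_of_mul_le_mul_right e6 hΔ'

/-- the vertices at distance at most two -/
noncomputable def X1 (G : SimpleGraph V) (w : V) : Finset V := nb G w ∪ (nb G w).biUnion (nb G)

theorem X1_card {G : SimpleGraph V} {Δ : ℕ} (hdeg : ∀ v, (nb G v).card ≤ Δ) (w : V) :
    (X1 G w).card ≤ Δ + Δ * Δ := by
  unfold X1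
  refine (card_union_le _ _).trans (Nat.add_le_add (hdeg w) ?_)
  refine card_biUnion_le.trans ?_
  refine (sum_le_card_nsmul _ _ Δ fun v _ => hdeg v).trans ?_
  rw [smul_eq_mul]
  exact Nat.mul_le_mul_right _ (hdeg w)

theorem mem_X1_of {G : SimpleGraph V} {w y x : V} (h1 : G.Adj y w) (h2 : G.Adj x y) :
    x ∈ X1 G w := by
  unfold X1
  rw [mem_union, mem_biUnion]
  exact Or.inr ⟨y, mem_nb.2 h1.symm, mem_nb.2 h2.symm⟩

/-- the killer sets of the first round -/
noncomputable def KF (G : SimpleGraph V) (d : V × V) (y : V) : Finset V :=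
  nb G y ∪ nb G d.2 ∪ (Mb G d.1 d.2 \ {y})

theorem near {G : SimpleGraph V} {Δ : ℕ} {θ : ℝ} {w : V} {d : V × V}
    (hP : d.2 ∈ Lx G Δ θ d.1) (h : w ∈ Mb G d.1 d.2 ∨ ∃ y ∈ Mb G d.1 d.2, w ∈ KF G d y) :
    d.1 ∈ X1 G w ∧ d.2 ∈ nb G d.1 := by
  have hb : G.Adj d.1 d.2 := mem_nb.1 (mem_filter.1 hP).1
  refine ⟨?_, mem_nb.2 hb⟩
  rcases h with h | ⟨y, hy, hw⟩
  · unfold X1
    rw [mem_union]
    exact Or.inl (mem_nb.2 (mem_Mb.1 h).1.symm)
  · unfold KF at hw
    rw [mem_union, mem_union, mem_nb, mem_nb, mem_sdiff] at hw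
    rcases hw with (hw | hw) | hw
    · exact mem_X1_of hw (mem_Mb.1 hy).1
    · exact mem_X1_of hw hb
    · unfold X1
      rw [mem_union]
      exact Or.inl (mem_nb.2 (mem_Mb.1 hw.1).1.symm)

theorem arith4 {Δ : ℕ} (hΔ : 3 ≤ Δ) : (Δ + Δ * Δ) * Δ + Δ ≤ Δ ^ 4 := by
  have h4 : 3 * Δ ^ 3 ≤ Δ ^ 4 := by
    calc 3 * Δ ^ 3 ≤ Δ * Δ ^ 3 := Nat.mul_le_mul_right _ hΔ
      _ = Δ ^ 4 := by ring
  have h5 : 3 * Δ ^ 2 ≤ Δ ^ 3 := by
    calc 3 * Δ ^ 2 ≤ Δ * Δ ^ 2 := Nat.mul_le_mul_right _ hΔ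
      _ = Δ ^ 3 := by ring
  have h6 : 3 * Δ ≤ Δ ^ 2 := by
    calc 3 * Δ ≤ Δ * Δ := Nat.mul_le_mul_right _ hΔ
      _ = Δ ^ 2 := by ring
  have h3 : (Δ + Δ * Δ) * Δ + Δ = Δ ^ 3 + Δ ^ 2 + Δ := by ring
  rw [h3]
  nlinarith

/-- every vertex is in at most `Δ ^ 4` demands -/
theorem demand_count {G : SimpleGraph V} {Δ : ℕ} {θ : ℝ} (hΔ : 3 ≤ Δ)
    (hdeg : ∀ v, (nb G v).card ≤ Δ) (w : V) :
    (univ.filter (fun d : {d : V × V // d.2 ∈ Lx G Δ θ d.1} =>
      w ∈ Mb G d.1.1 d.1.2 ∨ ∃ y ∈ Mb G d.1.1 d.1.2, w ∈ KF G d.1 y)).card +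
    (univ.filter (fun x : V => w ∈ Lx G Δ θ x)).card ≤ Δ ^ 4 := by
  have h1 : (univ.filter (fun d : {d : V × V // d.2 ∈ Lx G Δ θ d.1} =>
      w ∈ Mb G d.1.1 d.1.2 ∨ ∃ y ∈ Mb G d.1.1 d.1.2, w ∈ KF G d.1 y)).card ≤
      (Δ + Δ * Δ) * Δ := by
    have hinj : Function.Injective (fun d : {d : V × V // d.2 ∈ Lx G Δ θ d.1} => d.1) :=
      Subtype.val_injective
    rw [← card_image_of_injective _ hinj]
    have hsub : (univ.filter (fun d : {d : V × V // d.2 ∈ Lx G Δ θ d.1} =>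
        w ∈ Mb G d.1.1 d.1.2 ∨ ∃ y ∈ Mb G d.1.1 d.1.2, w ∈ KF G d.1 y)).image
          (fun d => d.1) ⊆ (X1 G w).biUnion (fun x => (nb G x).image (fun b => (x, b))) := by
      intro d hd
      obtain ⟨⟨d', hP⟩, hd', rfl⟩ := mem_image.1 hd
      rw [mem_filter] at hd'
      obtain ⟨hn1, hn2⟩ := near hP hd'.2
      exact mem_biUnion.2 ⟨d'.1, hn1, mem_image.2 ⟨d'.2, hn2, rfl⟩⟩
    refine (card_le_card hsub).trans (card_biUnion_le.trans ?_)
    refine (sum_le_card_nsmul _ _ Δ fun x _ => card_image_le.trans (hdeg x)).trans ?_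
    rw [smul_eq_mul]
    exact Nat.mul_le_mul_right _ (X1_card hdeg w)
  have h2 : (univ.filter (fun x : V => w ∈ Lx G Δ θ x)).card ≤ Δ := by
    refine (card_le_card ?_).trans (hdeg w)
    intro x hx
    rw [mem_filter] at hx
    exact mem_nb.2 (mem_nb.1 (mem_filter.1 hx.2).1).symm
  exact (Nat.add_le_add h1 h2).trans (arith4 hΔ)

theorem demand_count2 {G : SimpleGraph V} {Δ : ℕ} (hΔ : 3 ≤ Δ) (hdeg : ∀ v, (nb G v).card ≤ Δ)
    (Ma : V → Finset V) (hMa : ∀ x, Ma x ⊆ nb G x) (U : Finset V) (w : V) :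
    (univ.filter (fun x : V => w ∈ Ma x ∨ ∃ y ∈ Ma x, w ∈ nb G y ∩ U)).card +
    (univ.filter (fun _ : PEmpty.{u+1} => w ∈ (∅ : Finset V))).card ≤ Δ ^ 4 := by
  have h1 : (univ.filter (fun x : V => w ∈ Ma x ∨ ∃ y ∈ Ma x, w ∈ nb G y ∩ U)).card ≤
      Δ + Δ * Δ := by
    refine (card_le_card ?_).trans (X1_card hdeg w)
    intro x hx
    rw [mem_filter] at hx
    rcases hx.2 with h | ⟨y, hy, hw⟩
    · unfold X1
      rw [mem_union]
      exact Or.inl (mem_nb.2 (mem_nb.1 (hMa x h)).symm)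
    · exact mem_X1_of (mem_nb.1 (mem_inter.1 hw).1) (mem_nb.1 (hMa x hy))
  have h2 : (univ.filter (fun _ : PEmpty.{u+1} => w ∈ (∅ : Finset V))).card = 0 := by
    simp
  rw [h2, Nat.add_zero]
  refine h1.trans (le_trans ?_ (arith4 hΔ))
  nlinarith [Nat.zero_le (Δ * Δ), Nat.zero_le Δ]

theorem av_card {G : SimpleGraph V} {N : ℕ} {F : V → Finset ℕ} {c : V → ℕ} {U : Finset V}
    (x : V) : (N : ℝ) - (F x).card - (((nb G x \ U).image c).card : ℝ) ≤
      ((av G N F c U x).card : ℝ) := by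
  have h : N ≤ (av G N F c U x).card + (F x).card + ((nb G x \ U).image c).card := by
    have hsub : range N ⊆ (av G N F c U x ∪ F x) ∪ (nb G x \ U).image c := by
      intro a ha
      unfold av
      rw [mem_union, mem_union, mem_sdiff, mem_sdiff]
      tauto
    have h1 := card_le_card hsub
    rw [card_range] at h1
    have h2 := card_union_le (av G N F c U x ∪ F x) ((nb G x \ U).image c)
    have h3 := card_union_le (av G N F c U x) (F x)
    omega
  have h' : (N : ℝ) ≤ (av G N F c U x).card + (F x).card + ((nb G x \ U).image c).card := by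
    exact_mod_cast h
  linarith

/-- free colours at `b` given by the coloured vertices of `Mb` -/
theorem q3_of {G : SimpleGraph V} {N : ℕ} {F : V → Finset ℕ} {c c' : V → ℕ} {U : Finset V}
    {x b : V} {s : ℝ}
    (hgood : s ≤ (((Mb G x b).filter (fun y => y ∉ U ∧
      c' y ∈ av G N F c univ y ∩ av G N F c univ b ∧
      ∀ w ∈ KF G (x, b) y, w ∈ (univ : Finset V) → w ∉ U → c' w ≠ c' y)).card : ℝ)) :
    s ≤ ((av G N F c' U b ∩ (nb G x \ U).image c').card : ℝ) := by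
  set Y := (Mb G x b).filter (fun y => y ∉ U ∧
      c' y ∈ av G N F c univ y ∩ av G N F c univ b ∧
      ∀ w ∈ KF G (x, b) y, w ∈ (univ : Finset V) → w ∉ U → c' w ≠ c' y) with hY
  have hinj : Set.InjOn c' (Y : Set V) := by
    intro y hy y' hy' h
    by_contra hne
    rw [mem_coe, hY, mem_filter] at hy hy'
    refine hy.2.2.2 y' ?_ (mem_univ _) hy'.2.1 h.symm
    unfold KF
    rw [mem_union]
    right
    rw [mem_sdiff, mem_singleton]
    exact ⟨hy'.1, fun h => hne h.symm⟩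
  have hsub : Y.image c' ⊆ av G N F c' U b ∩ (nb G x \ U).image c' := by
    intro a ha
    obtain ⟨y, hy, rfl⟩ := mem_image.1 ha
    rw [hY, mem_filter] at hy
    obtain ⟨hyM, hyU, hyB, hyK⟩ := hy
    rw [mem_inter] at hyB ⊢
    constructor
    · have h1 := hyB.2
      unfold av at h1 ⊢
      rw [mem_sdiff] at h1 ⊢
      refine ⟨h1.1, ?_⟩
      intro h2
      obtain ⟨w, hw, h3⟩ := mem_image.1 h2
      rw [mem_sdiff] at hw
      refine hyK w ?_ (mem_univ _) hw.2 h3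
      unfold KF
      rw [mem_union, mem_union]
      exact Or.inl (Or.inr hw.1)
    · exact mem_image_of_mem _ (mem_sdiff.2 ⟨mem_nb.2 (mem_Mb.1 hyM).1, hyU⟩)
  have hcard := card_le_card hsub
  rw [card_image_of_injOn hinj] at hcard
  have hcard' : (Y.card : ℝ) ≤ ((av G N F c' U b ∩ (nb G x \ U).image c').card : ℝ) := by
    exact_mod_cast hcard
  exact hgood.trans hcard'

/-- the colours used twice -/
theorem save {G : SimpleGraph V} {c c' : V → ℕ} {U U' Y : Finset V} {x : V}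
    (hU : U' ⊆ U) (hc : ∀ z, z ∉ U → c' z = c z) (hY : Y ⊆ nb G x ∩ U) (hYU : ∀ y ∈ Y, y ∉ U')
    (hYc : ∀ y ∈ Y, c' y ∈ (nb G x \ U).image c) :
    ((nb G x \ U').image c').card + Y.card + (nb G x ∩ U').card ≤ (nb G x).card := by
  have hsub : (nb G x \ U').image c' ⊆ ((nb G x \ U') \ Y).image c' := by
    intro a ha
    obtain ⟨z, hz, rfl⟩ := mem_image.1 ha
    by_cases hzY : z ∈ Y
    · obtain ⟨z', hz', h6⟩ := mem_image.1 (hYc z hzY)
      rw [mem_sdiff] at hz'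
      rw [← h6, ← hc z' hz'.2]
      refine mem_image_of_mem _ (mem_sdiff.2 ⟨mem_sdiff.2 ⟨hz'.1, fun h => hz'.2 (hU h)⟩, ?_⟩)
      intro h7
      exact hz'.2 (mem_inter.1 (hY h7)).2
    · exact mem_image_of_mem _ (mem_sdiff.2 ⟨hz, hzY⟩)
  have e1 : ((nb G x \ U').image c').card ≤ ((nb G x \ U') \ Y).card :=
    (card_le_card hsub).trans card_image_le
  have e2 : ((nb G x \ U') \ Y).card + Y.card = (nb G x \ U').card :=
    card_sdiff_add_card_eq_card fun y hy =>
      mem_sdiff.2 ⟨(mem_inter.1 (hY hy)).1, hYU y hy⟩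
  have e3 : (nb G x \ U').card + (nb G x ∩ U').card = (nb G x).card :=
    card_sdiff_add_card_inter _ _
  omega

end defs

/-- the statement for natural numbers as colours -/
theorem main (hSTEP : Stmt_STEP.{u}) (hCNT : Stmt_CNT.{u}) (θ : ℝ) (hθ : 0 < θ) :
    ∃ (κ : ℝ) (Δ0 : ℕ), 0 < κ ∧ κ ≤ 1 ∧
    ∀ {V : Type u} [Fintype V] (G : SimpleGraph V) (Δ : ℕ) (F : V → Finset ℕ), Δ0 ≤ Δ →
      (∀ v, (nb G v).card ≤ Δ) →
      (∀ v, θ * (Δ : ℝ) ^ 2 ≤ ((mis G (nb G v)).card : ℝ)) →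
      (∀ v, ((F v).card : ℝ) ≤ κ * Δ + 4) →
      ∃ c : V → ℕ, (∀ v, c v < Δ ∧ c v ∉ F v) ∧ ∀ v w, G.Adj v w → c v ≠ c w := by
  obtain ⟨κ1, Δ1, hκ1, hstep1⟩ := hSTEP (1 / 2) (θ / 2) (by norm_num) (by norm_num)
    (by positivity)
  set γ1 : ℝ := min (κ1 * (θ / 2)) 1 with hγ1
  have hγ1pos : 0 < γ1 := lt_min (by positivity) one_pos
  have hγ1le : γ1 ≤ κ1 * (θ / 2) := min_le_left _ _
  obtain ⟨κ2, Δ2, hκ2, hstep2⟩ := hSTEP γ1 γ1 hγ1pos (min_le_right _ _) hγ1pos
  set γ2 : ℝ := κ2 * γ1 with hγ2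
  have hγ2pos : 0 < γ2 := by positivity
  obtain ⟨K, hcnt⟩ := hCNT (γ2 / 2) (by positivity)
  obtain ⟨Δ3, hΔ3⟩ := exists_nat_gt (16 / γ2)
  refine ⟨min (γ2 / 4) (1 / 16), max (max Δ1 Δ2) (max Δ3 100), lt_min (by positivity)
    (by norm_num), (min_le_right _ _).trans (by norm_num), ?_⟩
  intro V _ G Δ F hΔ hdeg hmis hF
  have hd1 : Δ1 ≤ Δ := ((le_max_left _ _).trans (le_max_left _ _)).trans hΔ
  have hd2 : Δ2 ≤ Δ := ((le_max_right _ _).trans (le_max_left _ _)).trans hΔ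
  have hd3 : Δ3 ≤ Δ := ((le_max_left _ _).trans (le_max_right _ _)).trans hΔ
  have hd4 : 100 ≤ Δ := ((le_max_right _ _).trans (le_max_right _ _)).trans hΔ
  have hΔR : (100 : ℝ) ≤ Δ := by exact_mod_cast hd4
  have hΔ3' : 16 / γ2 < (Δ : ℝ) := lt_of_lt_of_le hΔ3 (by exact_mod_cast hd3)
  have hbig : 16 < γ2 * Δ := by
    rw [div_lt_iff₀ hγ2pos] at hΔ3'
    linarith
  have hF1 : ∀ v, ((F v).card : ℝ) ≤ 1 / 16 * Δ + 4 := by
    intro v
    refine (hF v).trans ?_
    have : min (γ2 / 4) (1 / 16) * (Δ : ℝ) ≤ 1 / 16 * Δ :=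
      mul_le_mul_of_nonneg_right (min_le_right _ _) (by linarith)
    linarith
  have hF2 : ∀ v, ((F v).card : ℝ) ≤ γ2 / 4 * Δ + 4 := by
    intro v
    refine (hF v).trans ?_
    have : min (γ2 / 4) (1 / 16) * (Δ : ℝ) ≤ γ2 / 4 * Δ :=
      mul_le_mul_of_nonneg_right (min_le_left _ _) (by linarith)
    linarith
  have hL : ∀ x, θ / 2 * Δ ≤ ((Lx G Δ θ x).card : ℝ) := fun x =>
    Lx_card (by omega) hθ (hdeg x) (hmis x)
  -- first round
  have hst0 : PSt G Δ F (fun _ => 0) (univ : Finset V) :=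
    ⟨fun x hx => absurd (mem_univ x) hx, fun x hx => absurd (mem_univ x) hx,
      fun x y hx _ _ => absurd (mem_univ x) hx⟩
  obtain ⟨c1, U1, -, -, hst1, -, hact1, hidle1⟩ := hstep1 G Δ Δ (fun _ _ => 0) F (fun _ => 0)
    univ {d : V × V // d.2 ∈ Lx G Δ θ d.1} V (fun d => Mb G d.1.1 d.1.2)
    (fun d y => av G Δ F (fun _ => 0) univ y ∩ av G Δ F (fun _ => 0) univ d.1.2)
    (fun d => KF G d.1) (Lx G Δ θ) hd1 le_rfl (by omega) hdeg hst0
    (by
      rintro ⟨d, hd⟩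
      refine ⟨(mem_filter.1 hd).2, (card_le_card (filter_subset _ _)).trans (hdeg _),
        subset_univ _⟩)
    (by
      intro x
      exact ⟨hL x, (card_le_card (filter_subset _ _)).trans (hdeg _), subset_univ _⟩)
    (by
      rintro ⟨d, hd⟩ y hy
      refine ⟨inter_subset_left, ?_⟩
      have hav : ∀ v, av G Δ F (fun _ => 0) univ v = range Δ \ F v := by
        intro v
        unfold av
        have h0 : nb G v \ univ = (∅ : Finset V) := sdiff_eq_empty_iff_subset.2 (subset_univ _)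
        rw [h0, image_empty, sdiff_empty]
      simp only [hav]
      have h1 : range Δ ⊆ ((range Δ \ F y) ∩ (range Δ \ F d.2)) ∪ (F y ∪ F d.2) := by
        intro a ha
        rw [mem_union, mem_union, mem_inter, mem_sdiff, mem_sdiff]
        tauto
      have h2 := card_le_card h1
      rw [card_range] at h2
      have h3 := card_union_le ((range Δ \ F y) ∩ (range Δ \ F d.2)) (F y ∪ F d.2)
      have h4 := card_union_le (F y) (F d.2)
      have h5 : (Δ : ℝ) ≤ (((range Δ \ F y) ∩ (range Δ \ F d.2)).card : ℝ) + (F y).card +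
          (F d.2).card := by
        have : Δ ≤ ((range Δ \ F y) ∩ (range Δ \ F d.2)).card + (F y).card + (F d.2).card := by
          omega
        exact_mod_cast this
      have h6 := hF1 y
      have h7 := hF1 d.2
      linarith)
    (by
      rintro ⟨d, hd⟩ y hy
      have hy' := mem_Mb.1 hy
      unfold KF
      simp only
      refine ⟨?_, ?_, ?_⟩
      · intro z hz
        rw [mem_union, mem_union]
        exact Or.inl (Or.inl (mem_inter.1 hz).1)
      · have h1 := card_union_le (nb G y ∪ nb G d.2) (Mb G d.1 d.2 \ {y})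
        have h2 := card_union_le (nb G y) (nb G d.2)
        have h3 : (Mb G d.1 d.2 \ {y}).card ≤ Δ :=
          (card_le_card (sdiff_subset.trans (filter_subset _ _))).trans (hdeg d.1)
        have h4 := hdeg y
        have h5 := hdeg d.2
        omega
      · rw [mem_union, mem_union, mem_nb, mem_nb, mem_sdiff, mem_singleton]
        rintro ((h | h) | h)
        · exact G.irrefl h
        · exact hy'.2.2 h.symm
        · exact h.2 rfl)
    (fun w => demand_count (by omega) hdeg w)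
  -- the demands of the second round
  let Ma : V → Finset V := fun x => (nb G x ∩ U1).filter (fun b =>
    γ1 * Δ ≤ ((av G Δ F c1 U1 b ∩ (nb G x \ U1).image c1).card : ℝ))
  have hMaU : ∀ x, Ma x ⊆ nb G x ∩ U1 := fun x => filter_subset _ _
  have hMac : ∀ x, γ1 * Δ ≤ ((Ma x).card : ℝ) := by
    intro x
    have h1 := hidle1 x
    have hsub : Lx G Δ θ x ∩ U1 ⊆ Ma x := by
      intro b hb
      rw [mem_inter] at hb
      have hb1 := mem_filter.1 hb.1
      refine mem_filter.2 ⟨mem_inter.2 ⟨hb1.1, hb.2⟩, ?_⟩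
      refine q3_of (c := fun _ => 0) ?_
      refine le_trans ?_ (hact1 ⟨(x, b), hb.1⟩)
      have h2 : κ1 * (θ / 2 * Δ) ≤ κ1 * ((Mb G x b).card : ℝ) :=
        mul_le_mul_of_nonneg_left hb1.2 hκ1.le
      have h3 : γ1 * Δ ≤ κ1 * (θ / 2) * Δ := mul_le_mul_of_nonneg_right hγ1le (by linarith)
      simp only
      linarith
    have h2 : ((Lx G Δ θ x ∩ U1).card : ℝ) ≤ ((Ma x).card : ℝ) := by
      exact_mod_cast card_le_card hsub
    have h3 : κ1 * (θ / 2 * Δ) ≤ κ1 * ((Lx G Δ θ x).card : ℝ) :=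
      mul_le_mul_of_nonneg_left (hL x) hκ1.le
    have h4 : γ1 * Δ ≤ κ1 * (θ / 2) * Δ := mul_le_mul_of_nonneg_right hγ1le (by linarith)
    linarith
  obtain ⟨c2, U2, hU2, hc2, hst2, -, hact2, -⟩ := hstep2 G Δ Δ (fun _ _ => 0) F c1 U1
    V PEmpty.{u+1} Ma (fun x y => av G Δ F c1 U1 y ∩ (nb G x \ U1).image c1)
    (fun _ y => nb G y ∩ U1) (fun _ => ∅) hd2 le_rfl (by omega) hdeg hst1
    (by
      intro x
      refine ⟨hMac x, ?_, (hMaU x).trans inter_subset_right⟩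
      exact (card_le_card ((hMaU x).trans inter_subset_left)).trans (hdeg x))
    (fun d => d.elim)
    (by
      intro x y hy
      exact ⟨inter_subset_left, (mem_filter.1 hy).2⟩)
    (by
      intro x y _
      refine ⟨Subset.refl _, ?_, ?_⟩
      · have h1 := card_le_card (inter_subset_left (s₁ := nb G y) (s₂ := U1))
        have h2 := hdeg y
        omega
      · rw [mem_inter, mem_nb]
        exact fun h => G.irrefl h.1)
    (fun w => demand_count2 (by omega) hdeg Ma (fun x => (hMaU x).trans inter_subset_left) U1 w)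
  -- counting
  obtain ⟨c3, h3L, h3p, -⟩ := hcnt G Δ (fun _ _ => 0) U2 (fun x => av G Δ F c2 U2 x) (by omega)
    hdeg (by
      intro x _
      set Y := (Ma x).filter (fun y => y ∉ U2 ∧
        c2 y ∈ av G Δ F c1 U1 y ∩ (nb G x \ U1).image c1 ∧
        ∀ w ∈ nb G y ∩ U1, w ∈ U1 → w ∉ U2 → c2 w ≠ c2 y) with hY
      have h1 : κ2 * ((Ma x).card : ℝ) ≤ (Y.card : ℝ) := hact2 x
      have h2 := save (G := G) (c := c1) (c' := c2) (U := U1) (U' := U2) (Y := Y) (x := x) hU2 hc2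
        ((filter_subset _ _).trans (hMaU x)) (fun y hy => (mem_filter.1 hy).2.1)
        (fun y hy => (mem_inter.1 (mem_filter.1 hy).2.2.1).2)
      have h3 : (((nb G x \ U2).image c2).card : ℝ) + Y.card + ((nb G x ∩ U2).card : ℝ) ≤ Δ := by
        exact_mod_cast h2.trans (hdeg x)
      have h4 := av_card (G := G) (N := Δ) (F := F) (c := c2) (U := U2) x
      have h5 : κ2 * (γ1 * Δ) ≤ κ2 * ((Ma x).card : ℝ) :=
        mul_le_mul_of_nonneg_left (hMac x) hκ2.le
      have h6 := hF2 x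
      have h7 : κ2 * (γ1 * (Δ : ℝ)) = γ2 * Δ := by rw [hγ2]; ring
      linarith)
  refine ⟨fun x => if x ∈ U2 then c3 x else c2 x, ?_, ?_⟩
  · intro v
    by_cases hv : v ∈ U2
    · simp only [if_pos hv]
      have h := h3L v hv
      unfold av at h
      rw [mem_sdiff, mem_sdiff, mem_range] at h
      exact h.1
    · simp only [if_neg hv]
      exact ⟨hst2.lt v hv, hst2.fb v hv⟩
  · have key : ∀ v w, v ∈ U2 → w ∉ U2 → G.Adj v w → c3 v ≠ c2 w := by
      intro v w hv hw hvw h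
      have h1 := h3L v hv
      unfold av at h1
      rw [mem_sdiff] at h1
      exact h1.2 (mem_image.2 ⟨w, mem_sdiff.2 ⟨mem_nb.2 hvw, hw⟩, h.symm⟩)
    intro v w hvw
    by_cases hv : v ∈ U2 <;> by_cases hw : w ∈ U2
    · simp only [if_pos hv, if_pos hw]
      exact h3p v hv w hw hvw
    · simp only [if_pos hv, if_neg hw]
      exact key v w hv hw hvw
    · simp only [if_neg hv, if_pos hw]
      exact (key w v hw hv hvw.symm).symm
    · simp only [if_neg hv, if_neg hw]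
      exact hst2.pc v w hv hw hvw

end SPV

theorem stmt_SPV_of (hSTEP : Stmt_STEP.{u}) (hCNT : Stmt_CNT.{u}) : Stmt_SPV.{u} := by
  intro θ hθ
  obtain ⟨κ, Δ0, hκ, hκ1, hmain⟩ := SPV.main hSTEP hCNT θ hθ
  refine ⟨κ, Δ0, hκ, hκ1, ?_⟩
  intro V _ G Δ C P Fb hΔ hdeg hmis hFb hP
  obtain ⟨P', hP'P, hP'c⟩ := exists_subset_card_eq (s := P) (n := min P.card Δ) (min_le_left _ _)
  set p := min P.card Δ with hp
  have hpΔ : p ≤ Δ := min_le_right _ _
  have hpκ : (Δ : ℝ) - p ≤ κ * Δ := by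
    rcases le_total P.card Δ with h | h
    · have : p = P.card := min_eq_left h
      rw [this]
      linarith
    · have : p = Δ := min_eq_right h
      rw [this, sub_self]
      positivity
  let e : P' ≃ Fin p := Fintype.equivFinOfCardEq (by rw [Fintype.card_coe, hP'c])
  let I : V → Finset ℕ := fun v => (univ.filter (fun q : P' => q.1 ∈ Fb v)).image (fun q => (e q).1)
  have hI : ∀ v, (I v).card ≤ 4 := by
    intro v
    refine card_image_le.trans ?_
    have : (univ.filter (fun q : P' => q.1 ∈ Fb v)).card ≤ (Fb v).card := by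
      apply card_le_card_of_injOn (fun q : P' => q.1)
      · intro q hq
        exact (mem_filter.1 hq).2
      · intro a _ b _ h
        exact Subtype.ext h
    exact this.trans (hFb v)
  obtain ⟨c, hc1, hc2⟩ := hmain G Δ (fun v => Ico p Δ ∪ I v) hΔ hdeg hmis (by
    intro v
    have h1 := card_union_le (Ico p Δ) (I v)
    rw [Nat.card_Ico] at h1
    have h2 := hI v
    have h3 : ((Ico p Δ ∪ I v).card : ℝ) ≤ ((Δ - p : ℕ) : ℝ) + 4 := by
      exact_mod_cast h1.trans (Nat.add_le_add_left h2 _)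
    rw [Nat.cast_sub hpΔ] at h3
    linarith)
  have hlt : ∀ v, c v < p := by
    intro v
    obtain ⟨h1, h2⟩ := hc1 v
    by_contra h
    exact h2 (mem_union_left _ (mem_Ico.2 ⟨not_lt.1 h, h1⟩))
  refine ⟨fun v => (e.symm ⟨c v, hlt v⟩).1, ?_, ?_⟩
  · intro v
    refine ⟨hP'P (e.symm ⟨c v, hlt v⟩).2, ?_⟩
    intro h
    apply (hc1 v).2
    apply mem_union_right
    refine mem_image.2 ⟨e.symm ⟨c v, hlt v⟩, mem_filter.2 ⟨mem_univ _, h⟩, ?_⟩
    rw [e.apply_symm_apply]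
  · intro v w hvw h
    apply hc2 v w hvw
    have h1 := e.symm.injective (Subtype.ext h)
    exact congrArg Fin.val h1

/-- **SPV**: locally sparse graphs need fewer colours. -/
theorem stmt_SPV : Stmt_SPV.{u} :=
  stmt_SPV_of (Pool.Agent.Work.MP_db9399_all.stmt_STEP
    (Pool.Agent.Work.MP_db9399_all.stmt_RND Pool.Agent.Work.MP_db9399_all.stmt_LLLI
      Pool.Agent.Work.MP_db9399_all.stmt_RNH Pool.Agent.Work.MP_db9399_all.stmt_RNK))
    Pool.Agent.Work.MP_db9399_all.stmt_CNT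

end Pool.Agent.Work.MP_db9399_exp.helper99
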