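import Pool.Agent.Work.MP_db9399_exp.Interface
import Pool.Agent.Work.MP_db9399_exp_helper99.SPV

/-!
# MP_db9399, THEOREM EXP, block VCX (helper99)

The colours of the ordinary vertices, from SPV applied to every subcell.
-/

set_option autoImplicit false

namespace Pool.Agent.Work.MP_db9399_exp.helper99

open Finset Classical
open Pool.Agent.Work.MP_db9399_all (nb mis)

universe u

namespace VCX

section defs
variable {V : Type u} [Fintype V]

/-- the graph induced on the subtype of `Q` -/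
def GI (G : SimpleGraph V) (Q : V → Prop) : SimpleGraph {v : V // Q v} :=
  G.comap Subtype.val

theorem nb_map (G : SimpleGraph V) (Q : V → Prop) [Fintype {v : V // Q v}]
    (v : {v : V // Q v}) :
    (nb (GI G Q) v).map (Function.Embedding.subtype Q) = (nb G v.1).filter Q := by
  ext w
  rw [mem_map, mem_filter, SPV.mem_nb]
  constructor
  · rintro ⟨w', hw', rfl⟩
    rw [SPV.mem_nb] at hw'
    exact ⟨hw', w'.2⟩
  · rintro ⟨h1, h2⟩
    exact ⟨⟨w, h2⟩, SPV.mem_nb.2 h1, rfl⟩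

omit [Fintype V] in
theorem mis_map (G : SimpleGraph V) (Q : V → Prop) [Fintype {v : V // Q v}]
    (A : Finset {v : V // Q v}) :
    (mis (GI G Q) A).card = (mis G (A.map (Function.Embedding.subtype Q))).card := by
  rw [← card_map ((Function.Embedding.subtype Q).prodMap (Function.Embedding.subtype Q))]
  congr 1
  ext ⟨a, b⟩
  unfold mis
  simp only [mem_map, mem_filter, mem_product, Function.Embedding.subtype_apply]
  constructor
  · rintro ⟨⟨a', b'⟩, ⟨⟨h1, h2⟩, h3, h4⟩, h5⟩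
    simp only [Function.Embedding.coe_prodMap, Prod.map_apply, Function.Embedding.subtype_apply,
      Prod.mk.injEq] at h5
    obtain ⟨rfl, rfl⟩ := h5
    exact ⟨⟨⟨a', h1, rfl⟩, ⟨b', h2, rfl⟩⟩, fun h => h3 (Subtype.ext h), h4⟩
  · rintro ⟨⟨⟨a', h1, rfl⟩, ⟨b', h2, rfl⟩⟩, h3, h4⟩
    exact ⟨⟨a', b'⟩, ⟨⟨h1, h2⟩, fun h => h3 (congrArg Subtype.val h), h4⟩, rfl⟩

end defs

end VCX

/-- **VCX**: the colours of the ordinary vertices. -/
theorem stmt_VCX : Stmt_VCX.{u} := by
  intro θ hθ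
  obtain ⟨κ, Δ0, hκ, hκ1, hspv⟩ := stmt_SPV.{u} θ hθ
  refine ⟨κ, max Δ0 1, hκ, hκ1, ?_⟩
  intro V _ G U Δ k F S sub Pal hΔ hdeg hmis hF hU hPal hdisj
  have hΔ0 : Δ0 ≤ Δ := (le_max_left _ _).trans hΔ
  have hΔ1 : 1 ≤ Δ := (le_max_right _ _).trans hΔ
  have hΔR : (0 : ℝ) < Δ := by exact_mod_cast hΔ1
  let Fb : V → Finset (Fin k) := fun v =>
    (univ.filter (fun u => u ∈ U ∧ G.Adj v u)).biUnion F
  have hFb : ∀ v, (Fb v).card ≤ 4 := by
    intro v
    refine card_biUnion_le.trans ?_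
    refine (sum_le_card_nsmul _ _ 2 fun u hu => hF u (mem_filter.1 hu).2.1).trans ?_
    rw [smul_eq_mul]
    have := hU v
    omega
  have key : ∀ s : S, ∃ c : {v : V // v ∉ U ∧ sub v = s} → Fin k,
      (∀ v, c v ∈ Pal s ∧ c v ∉ Fb v.1) ∧ ∀ v w, G.Adj v.1 w.1 → c v ≠ c w := by
    intro s
    obtain ⟨c, h1, h2⟩ := hspv (VCX.GI G (fun v => v ∉ U ∧ sub v = s)) Δ (Fin k) (Pal s)
      (fun v => Fb v.1) hΔ0 (by
        intro v
        rw [← card_map (Function.Embedding.subtype _), VCX.nb_map]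
        convert hdeg v.1 s) (by
        intro v
        rw [VCX.mis_map, VCX.nb_map]
        convert hmis v.1 s) (fun v => hFb v.1) (hPal s)
    exact ⟨c, h1, fun v w h => h2 v w h⟩
  choose c hc1 hc2 using key
  by_cases hV : Nonempty V
  · -- there is a colour
    obtain ⟨v0⟩ := hV
    have hk : Nonempty (Fin k) := by
      have h1 := hmis v0 (sub v0)
      have h2 : 0 < ((mis G ((nb G v0).filter (fun w => w ∉ U ∧ sub w = sub v0))).card : ℝ) :=
        lt_of_lt_of_le (by positivity) h1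
      have h3 : 0 < (mis G ((nb G v0).filter (fun w => w ∉ U ∧ sub w = sub v0))).card := by
        exact_mod_cast h2
      obtain ⟨⟨a, b⟩, hab⟩ := card_pos.1 h3
      unfold mis at hab
      rw [mem_filter, mem_product] at hab
      have ha := (mem_filter.1 hab.1.1).2
      exact ⟨c (sub v0) ⟨a, ha⟩⟩
    obtain ⟨b0⟩ := hk
    refine ⟨fun v => if h : v ∉ U then c (sub v) ⟨v, h, rfl⟩ else b0, ?_, ?_, ?_⟩
    · intro v hv
      simp only [dif_pos hv]
      exact (hc1 (sub v) _).1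
    · intro v w hv hw hvw
      simp only [dif_pos hv, dif_pos hw]
      by_cases hs : sub v = sub w
      · have h1 : ∀ (s : S) (hs : sub v = s),
            c (sub v) ⟨v, hv, rfl⟩ = c s ⟨v, hv, hs⟩ := by
          rintro s rfl; rfl
        rw [h1 (sub w) hs]
        exact hc2 (sub w) ⟨v, hv, hs⟩ ⟨w, hw, rfl⟩ hvw
      · intro h
        have h1 := (hc1 (sub v) ⟨v, hv, rfl⟩).1
        have h2 := (hc1 (sub w) ⟨w, hw, rfl⟩).1
        rw [h] at h1
        exact disjoint_left.1 (hdisj _ _ hs) h1 h2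
    · intro v hv u hu hvu hcu
      simp only [dif_pos hv] at hcu
      apply (hc1 (sub v) ⟨v, hv, rfl⟩).2
      exact mem_biUnion.2 ⟨u, mem_filter.2 ⟨mem_univ _, hu, hvu⟩, hcu⟩
  · refine ⟨fun v => absurd ⟨v⟩ hV, fun v => absurd ⟨v⟩ hV, fun v => absurd ⟨v⟩ hV,
      fun v => absurd ⟨v⟩ hV⟩

end Pool.Agent.Work.MP_db9399_exp.helper99
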