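import Pool.Agent.Work.MP_db9399_exp.Interface

/-!
# MP_db9399, THEOREM EXP, block TGT (helper99)
-/

set_option autoImplicit false

namespace Pool.Agent.Work.MP_db9399_exp.helper99

open Finset Classical

theorem stmt_TGT : Stmt_TGT := by
  intro C S x T hT1 hT2
  set O : Finset C := S.filter (fun b => x b % 2 ≠ 0) with hO
  have hOS : O ⊆ S := filter_subset _ _
  have hOc : (O.card : ℤ) ≤ S.card := by exact_mod_cast card_le_card hOS
  have hind : ∀ A : Finset C, A ⊆ S → ∑ b ∈ S, (if b ∈ A then (1 : ℤ) else 0) = A.card := by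
    intro A hA
    rw [← sum_filter, filter_mem_eq_inter, inter_eq_right.2 hA]
    simp
  by_cases hc : -(O.card : ℤ) ≤ T
  · obtain ⟨H, hHO, hH⟩ := exists_subset_card_eq (s := O) (n := ((T + O.card) / 2).toNat) (by omega)
    have hHc : (H.card : ℤ) = (T + O.card) / 2 := by rw [hH]; omega
    have hHS := hHO.trans hOS
    have e1 := hind H hHS
    have e2 := hind O hOS
    have e3 := hind (O \ H) (sdiff_subset.trans hOS)
    have e4 : ((O \ H).card : ℤ) = O.card - H.card := by
      rw [card_sdiff_of_subset hHO]
      have := card_le_card hHO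
      omega
    refine ⟨fun b => 2 * (if b ∈ H then 1 else 0) - (if b ∈ O then 1 else 0), ?_, ?_, ?_, ?_⟩
    · intro b hb
      by_cases hbH : b ∈ H
      · have hbO := hHO hbH
        have h2 : x b % 2 ≠ 0 := (mem_filter.1 hbO).2
        simp only [if_pos hbH, if_pos hbO]
        omega
      · by_cases hbO : b ∈ O
        · have h2 : x b % 2 ≠ 0 := (mem_filter.1 hbO).2
          simp only [if_neg hbH, if_pos hbO]
          omega
        · have h2 : x b % 2 = 0 := by
            by_contra h
            exact hbO (mem_filter.2 ⟨hb, h⟩)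
          simp only [if_neg hbH, if_neg hbO]
          omega
    · rw [sum_sub_distrib, ← mul_sum, e1, e2, abs_le]
      omega
    · have : ∑ b ∈ S, max (2 * (if b ∈ H then (1 : ℤ) else 0) - (if b ∈ O then 1 else 0)) 0 =
          ∑ b ∈ S, (if b ∈ H then (1 : ℤ) else 0) := by
        apply sum_congr rfl
        intro b _
        by_cases hbH : b ∈ H
        · have hbO := hHO hbH
          simp [hbH, hbO]
        · by_cases hbO : b ∈ O <;> simp [hbH, hbO]
      rw [this, e1]
      omega
    · have : ∑ b ∈ S, max (-(2 * (if b ∈ H then (1 : ℤ) else 0) - (if b ∈ O then 1 else 0))) 0 =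
          ∑ b ∈ S, (if b ∈ O \ H then (1 : ℤ) else 0) := by
        apply sum_congr rfl
        intro b _
        by_cases hbH : b ∈ H
        · have hbO := hHO hbH
          simp [hbH, hbO]
        · by_cases hbO : b ∈ O <;> simp [hbH, hbO]
      rw [this, e3]
      omega
  · obtain ⟨H, hHO, hH⟩ := exists_subset_card_eq (s := S \ O)
      (n := ((-T - O.card) / 2).toNat) (by
        rw [card_sdiff_of_subset hOS]
        omega)
    have hHc : (H.card : ℤ) = (-T - O.card) / 2 := by rw [hH]; omega
    have hHS := hHO.trans sdiff_subset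
    have e1 := hind H hHS
    have e2 := hind O hOS
    refine ⟨fun b => - 2 * (if b ∈ H then 1 else 0) - (if b ∈ O then 1 else 0), ?_, ?_, ?_, ?_⟩
    · intro b hb
      by_cases hbH : b ∈ H
      · have hbO := (mem_sdiff.1 (hHO hbH)).2
        have h2 : x b % 2 = 0 := by
          by_contra h
          exact hbO (mem_filter.2 ⟨hb, h⟩)
        simp only [if_pos hbH, if_neg hbO]
        omega
      · by_cases hbO : b ∈ O
        · have h2 : x b % 2 ≠ 0 := (mem_filter.1 hbO).2
          simp only [if_neg hbH, if_pos hbO]
          omega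
        · have h2 : x b % 2 = 0 := by
            by_contra h
            exact hbO (mem_filter.2 ⟨hb, h⟩)
          simp only [if_neg hbH, if_neg hbO]
          omega
    · rw [sum_sub_distrib, ← mul_sum, e1, e2, abs_le]
      omega
    · have : ∑ b ∈ S, max (-2 * (if b ∈ H then (1 : ℤ) else 0) - (if b ∈ O then 1 else 0)) 0 =
          ∑ b ∈ S, (0 : ℤ) := by
        apply sum_congr rfl
        intro b _
        by_cases hbH : b ∈ H
        · have hbO := (mem_sdiff.1 (hHO hbH)).2
          simp [hbH, hbO]
        · by_cases hbO : b ∈ O <;> simp [hbH, hbO]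
      rw [this, sum_const_zero]
      omega
    · have : ∑ b ∈ S, max (-(-2 * (if b ∈ H then (1 : ℤ) else 0) - (if b ∈ O then 1 else 0))) 0 =
          ∑ b ∈ S, (2 * (if b ∈ H then (1 : ℤ) else 0) + (if b ∈ O then 1 else 0)) := by
        apply sum_congr rfl
        intro b _
        by_cases hbH : b ∈ H
        · have hbO := (mem_sdiff.1 (hHO hbH)).2
          simp [hbH, hbO]
        · by_cases hbO : b ∈ O <;> simp [hbH, hbO]
      rw [this, sum_add_distrib, ← mul_sum, e1, e2]
      omega

end Pool.Agent.Work.MP_db9399_exp.helper99
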